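import Pool.Agent.SigPoly.Final

/-!
# MP_f4c125_co: the signatures of the simple polygons with the minimum number of diagonals

A sequence of length `n` is the signature of a simple polygon with exactly `n - 3` diagonals if
and only if there is a triangulation of the convex `n`-gon together with a choice of one of the
two endpoints of each of its diagonals, such that

* a vertex of sign `1` is chosen by no diagonal,
* a vertex of sign `0` is on exactly one diagonal, and is chosen by it,
* a vertex of sign `-1` is chosen by exactly one diagonal, or by exactly two, which are two sides
  of a triangle of the triangulation.
-/

namespace Pool.Agent.Results.MP_f4c125_co.Signatures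

open Pool.Agent.SigPublic

theorem result (n : ℕ) (hn : 3 ≤ n) (σ : ZMod n → ℤ) :
    IsMinimalSignature σ ↔ Criterion n (fun k => σ (k : ZMod n)) :=
  Pool.Agent.SigPoly.minimal_iff_criterion hn σ

end Pool.Agent.Results.MP_f4c125_co.Signatures
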