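import Pool.Agent.SigPoly.Final

/-!
# MP_f4c125_co: the signatures without zeros

A sequence of signs `1` and `-1` is the signature of a simple `n`-gon with exactly `n - 3`
diagonals if and only if the number of entries `1` is at least three and is at most three more
than the number of entries `-1`.
-/

namespace Pool.Agent.Results.MP_f4c125_co.ZeroFree

open Pool.Agent.SigPublic

theorem result (n : ℕ) (hn : 3 ≤ n) (σ : ZMod n → ℤ) (hσ : ∀ j, σ j = 1 ∨ σ j = -1) :
    IsMinimalSignature σ ↔
      3 ≤ {j | σ j = 1}.ncard ∧ {j | σ j = 1}.ncard ≤ {j | σ j = -1}.ncard + 3 :=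
  Pool.Agent.SigPoly.zeroFree hn σ hσ

end Pool.Agent.Results.MP_f4c125_co.ZeroFree
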